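import Mathlib
import Pool.Agent.W307.QF.Stm

/-!
# Project QF, part AVC: local facts for the values of binary forms with the second variable fixed
-/

set_option autoImplicit false
set_option maxHeartbeats 400000

namespace Pool.Agent.W975.QF

open Finset Polynomial Pool.Agent.W262.RK Pool.Agent.W307.RT Pool.Agent.W307.RS Pool.Agent.W307.QF

/-- a linear polynomial has one zero modulo a prime that does not divide its leading coefficient -/
lemma nz_lin {p : ℕ} (hp : p.Prime) (a n b : ℤ) (ha : ¬ (p : ℤ) ∣ a) :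
    nz (Polynomial.C a * (Polynomial.X + Polynomial.C n) + Polynomial.C b) p = 1 := by
  haveI := Fact.mk hp
  have ha' : (a : ZMod p) ≠ 0 := by
    intro h
    exact ha ((ZMod.intCast_zmod_eq_zero_iff_dvd a p).1 h)
  unfold nz
  rw [card_eq_one]
  refine ⟨((-(b : ZMod p)) / a - n).val, ?_⟩
  ext x
  rw [mem_filter, mem_range, mem_singleton]
  have e1 : (p : ℤ) ∣ (Polynomial.C a * (Polynomial.X + Polynomial.C n) +
      Polynomial.C b).eval (x : ℤ) ↔ (x : ZMod p) = (-(b : ZMod p)) / a - n := by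
    rw [← ZMod.intCast_zmod_eq_zero_iff_dvd]
    simp only [eval_add, eval_mul, eval_C, eval_X]
    push_cast
    rw [eq_sub_iff_add_eq, eq_div_iff ha', eq_neg_iff_add_eq_zero, mul_comm]
  rw [e1]
  constructor
  · rintro ⟨h1, h2⟩
    rw [← h2, ZMod.val_natCast, Nat.mod_eq_of_lt h1]
  · intro h
    rw [h]
    exact ⟨ZMod.val_lt _, by rw [ZMod.natCast_val, ZMod.cast_id]⟩

lemma re_zero {p : ℕ} (hp : p.Prime) : re 0 p = 1 := by
  unfold re
  rw [jacobiSym.zero_left hp.one_lt]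
  rfl

lemma re_le (e : ℤ) (p : ℕ) : re e p ≤ 2 := by
  unfold re
  rcases jacobiSym.trichotomy e p with h | h | h <;> rw [h] <;> decide

section

variable {J1 J2 : Type} (α β : J1 → ℤ) (qa qb qc : J2 → ℤ)

/-- the polynomials for a fixed second variable -/
noncomputable def PW (n w : ℤ) : J1 ⊕ J2 → ℤ[X] :=
  Sum.elim (fun j => Polynomial.C (α j) * (Polynomial.X + Polynomial.C n) +
      Polynomial.C (β j * w))
    (fun j => Polynomial.C (qa j) * (Polynomial.X + Polynomial.C n) ^ 2 +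
      Polynomial.C (qb j * w) * (Polynomial.X + Polynomial.C n) + Polynomial.C (qc j * w ^ 2))

lemma PW_eval (n w x : ℤ) (j : J1 ⊕ J2) :
    (PW α β qa qb qc n w j).eval x = fb α β qa qb qc (n + x) w j := by
  rcases j with j | j
  · simp only [PW, fb, Sum.elim_inl, eval_add, eval_mul, eval_C, eval_X]
    ring
  · simp only [PW, fb, Sum.elim_inr, eval_add, eval_mul, eval_pow, eval_C, eval_X]
    ring

/-- the discriminants -/
def ee : J1 ⊕ J2 → ℤ := Sum.elim (fun _ => 0) (fun j => qb j ^ 2 - 4 * qa j * qc j)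

/-- the facts for the primes greater than `z` -/
structure Lc (z : ℕ) : Prop where
  la : ∀ p : ℕ, p.Prime → z < p → ∀ i, ¬ (p : ℤ) ∣ α i
  lq : ∀ p : ℕ, p.Prime → z < p → ∀ j, ¬ (p : ℤ) ∣ qa j
  lc : ∀ p : ℕ, p.Prime → z < p → ∀ u v : ℤ, ¬ (p : ℤ) ∣ v → ∀ i j : J1 ⊕ J2, i ≠ j →
      ¬ ((p : ℤ) ∣ fb α β qa qb qc u v i ∧ (p : ℤ) ∣ fb α β qa qb qc u v j)
  ld : ∀ p : ℕ, p.Prime → z < p → ∀ j, ¬ (p : ℤ) ∣ qb j ^ 2 - 4 * qa j * qc j
  ln : ∀ (p : ℕ) (n w : ℤ), p.Prime → z < p → ¬ (p : ℤ) ∣ w → ∀ j,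
    nz (Polynomial.C (qa j) * (Polynomial.X + Polynomial.C n) ^ 2 +
      Polynomial.C (qb j * w) * (Polynomial.X + Polynomial.C n) + Polynomial.C (qc j * w ^ 2)) p =
      re (qb j ^ 2 - 4 * qa j * qc j) p

variable {α β qa qb qc}

lemma not_dvd_w {z : ℕ} (hL : Lc α β qa qb qc z) {p : ℕ} (hp : p.Prime) (hz : z < p) {u w : ℤ}
    (huw : IsCoprime u w) (i : J1 ⊕ J2) (h : (p : ℤ) ∣ fb α β qa qb qc u w i) :
    ¬ (p : ℤ) ∣ w := by
  intro hw
  have hpI : Prime (p : ℤ) := Nat.prime_iff_prime_int.1 hp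
  have hu : ¬ (p : ℤ) ∣ u := fun h => hpI.not_isUnit (huw.isUnit_of_dvd' h hw)
  rcases i with i | j
  · simp only [fb, Sum.elim_inl] at h
    have h3 : (p : ℤ) ∣ α i * u := (dvd_add_left (hw.mul_left _)).1 h
    rcases hpI.dvd_or_dvd h3 with h | h
    · exact hL.la p hp hz i h
    · exact hu h
  · simp only [fb, Sum.elim_inr] at h
    have h3 : (p : ℤ) ∣ qa j * u ^ 2 := by
      have h4 : qa j * u ^ 2 = (qa j * u ^ 2 + qb j * (u * w) + qc j * w ^ 2) -
          w * (qb j * u + qc j * w) := by ring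
      rw [h4]
      exact dvd_sub h (hw.mul_right _)
    rcases hpI.dvd_or_dvd h3 with h | h
    · exact hL.lq p hp hz j h
    · exact hu (hpI.dvd_of_dvd_pow h)

lemma gd_fb {z : ℕ} (hL : Lc α β qa qb qc z) {u w : ℤ} (huw : IsCoprime u w)
    (h0 : ∀ j, fb α β qa qb qc u w j ≠ 0) : Gd z (fb α β qa qb qc u w) := by
  refine ⟨h0, fun p hp hzp j l hjl h => ?_⟩
  exact hL.lc p hp hzp u w (not_dvd_w hL hp hzp huw j h.1) j l hjl h

lemma nz_PW {z : ℕ} (hL : Lc α β qa qb qc z) {p : ℕ} (hp : p.Prime) (hz : z < p) {n w : ℤ}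
    (hw : ¬ (p : ℤ) ∣ w) (j : J1 ⊕ J2) :
    nz (PW α β qa qb qc n w j) p = re (ee qa qb qc j) p := by
  rcases j with j | j
  · simp only [PW, ee, Sum.elim_inl]
    rw [nz_lin hp _ _ _ (hL.la p hp hz j), re_zero hp]
  · simp only [PW, ee, Sum.elim_inr]
    exact hL.ln p n w hp hz hw j

lemma der_PW {z : ℕ} (hL : Lc α β qa qb qc z) {p : ℕ} (hp : p.Prime) (hz : z < p) {n w x : ℤ}
    (hw : ¬ (p : ℤ) ∣ w) (j : J1 ⊕ J2) :
    ¬ ((p : ℤ) ∣ (PW α β qa qb qc n w j).eval x ∧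
      (p : ℤ) ∣ (derivative (PW α β qa qb qc n w j)).eval x) := by
  have hpI : Prime (p : ℤ) := Nat.prime_iff_prime_int.1 hp
  rintro ⟨h1, h2⟩
  rcases j with j | j
  · have e : (derivative (PW α β qa qb qc n w (Sum.inl j))).eval x = α j := by
      simp [PW]
    rw [e] at h2
    exact hL.la p hp hz j h2
  · have e : (derivative (PW α β qa qb qc n w (Sum.inr j))).eval x =
        2 * qa j * (x + n) + qb j * w := by
      simp only [PW, Sum.elim_inr, derivative_add, derivative_mul, derivative_C, derivative_X,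
        derivative_pow, eval_add, eval_mul, eval_C, eval_X, eval_pow, eval_zero, eval_one,
        zero_mul, zero_add, add_zero, Nat.cast_ofNat, mul_one]
      norm_num
      ring
    rw [e] at h2
    rw [PW_eval] at h1
    simp only [fb, Sum.elim_inr] at h1
    have h3 : (p : ℤ) ∣ (qb j ^ 2 - 4 * qa j * qc j) * w ^ 2 := by
      have h4 : (qb j ^ 2 - 4 * qa j * qc j) * w ^ 2 =
          (2 * qa j * (x + n) + qb j * w) * (2 * qa j * (x + n) + qb j * w) -
            (qa j * (n + x) ^ 2 + qb j * ((n + x) * w) + qc j * w ^ 2) * (4 * qa j) := by ring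
      rw [h4]
      exact dvd_sub (h2.mul_right _) (h1.mul_right _)
    rcases hpI.dvd_or_dvd h3 with h | h
    · exact hL.ld p hp hz j h
    · exact hw (hpI.dvd_of_dvd_pow h)

end

end Pool.Agent.W975.QF
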