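import Mathlib
import Pool.Agent.W975.QF.AVC1

/-!
# Project QF, part AVC: the number of the pairs, and the assembly
-/

set_option autoImplicit false
set_option maxHeartbeats 400000

namespace Pool.Agent.W975.QF

open Finset Polynomial Pool.Agent.W262.RK Pool.Agent.W307.RT Pool.Agent.W307.RS Pool.Agent.W307.QF

section

variable {J : Type} [Fintype J]

/-- the number of the prime factors of the `u j` -/
lemma omega_le {y Y X k a : ℕ} {u : J → ℕ} (hy : 1 ≤ y) (hu : ∀ j, u j ∈ (PP y Y).divisors)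
    (hle : ∏ j, u j ≤ a) (h8 : a ^ 8 ≤ X) (hk : X < (y + 1) ^ k) :
    ∑ j, (u j).primeFactors.card ≤ k := by
  have h1 : (y + 1) ^ (∑ j, (u j).primeFactors.card) ≤ ∏ j, u j := by
    rw [← prod_pow_eq_pow_sum]
    apply prod_le_prod'
    intro j _
    calc (y + 1) ^ (u j).primeFactors.card = ∏ p ∈ (u j).primeFactors, (y + 1) := by
          rw [prod_const]
      _ ≤ ∏ p ∈ (u j).primeFactors, p := prod_le_prod' fun p hp =>
          (dv_prime (hu j) (Nat.prime_of_mem_primeFactors hp) (Nat.dvd_of_mem_primeFactors hp)).1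
      _ = u j := Nat.prod_primeFactors_of_squarefree (dv_squarefree (hu j))
  have h3 : a ≤ a ^ 8 := Nat.le_self_pow (by norm_num) a
  have h4 : (y + 1) ^ (∑ j, (u j).primeFactors.card) < (y + 1) ^ k :=
    lt_of_le_of_lt (h1.trans (hle.trans (h3.trans h8))) hk
  exact ((Nat.pow_lt_pow_iff_right (by omega)).1 h4).le

lemma gw_comp {c n z y d : ℕ} (hz : 2 * c + 2 ≤ z) (hnc : n ≤ c) (hd : d ∈ (PP z y).divisors) :
    gw 1 c d ≤ 2 ^ d.primeFactors.card * gw 1 n d := by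
  unfold gw
  rw [← prod_const, ← prod_mul_distrib]
  have hpz : ∀ p ∈ d.primeFactors, 2 * (c : ℝ) + 2 < p := by
    intro p hp
    have h1 := (dv_prime hd (Nat.prime_of_mem_primeFactors hp) (Nat.dvd_of_mem_primeFactors hp)).1
    exact_mod_cast lt_of_le_of_lt hz h1
  have hc0 : (0 : ℝ) ≤ c := Nat.cast_nonneg c
  have hn0 : (0 : ℝ) ≤ n := Nat.cast_nonneg n
  have hn : (n : ℝ) ≤ c := by exact_mod_cast hnc
  apply prod_le_prod
  · intro p hp
    have := hpz p hp
    exact div_nonneg zero_le_one (by linarith)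
  · intro p hp
    have := hpz p hp
    rw [mul_one_div, div_le_div_iff₀ (by linarith) (by linarith)]
    linarith

end

section

variable {J1 J2 : Type} [Fintype J1] [DecidableEq J1] [Fintype J2] [DecidableEq J2]

lemma size (α β : J1 → ℤ) (qa qb qc : J2 → ℤ) (B : ℕ) : ∃ X1 : ℕ, ∀ (X : ℕ) (u v : ℤ),
    X1 ≤ X → 1 ≤ X → u.natAbs ≤ X ^ B + X → v.natAbs ≤ X ^ B + X →
    ∀ j, (fb α β qa qb qc u v j).natAbs ≤ X ^ (2 * B + 3) := by
  refine ⟨4 * (∑ j, ((α j).natAbs + (β j).natAbs) +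
    ∑ j, ((qa j).natAbs + (qb j).natAbs + (qc j).natAbs)), ?_⟩
  intro X u v h1 h0 hu hv j
  have hX : X ^ B + X ≤ 2 * X ^ (B + 1) := by
    have h71 : X ^ B ≤ X ^ (B + 1) := Nat.pow_le_pow_right h0 (by omega)
    have h72 : X ≤ X ^ (B + 1) := Nat.le_self_pow (by omega) X
    omega
  have hu' := hu.trans hX
  have hv' := hv.trans hX
  rcases j with j | j
  · simp only [fb, Sum.elim_inl]
    have hs : (α j).natAbs + (β j).natAbs ≤ ∑ j, ((α j).natAbs + (β j).natAbs) :=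
      single_le_sum (f := fun j => (α j).natAbs + (β j).natAbs)
        (fun _ _ => Nat.zero_le _) (mem_univ j)
    have hs2 : 2 * ((α j).natAbs + (β j).natAbs) ≤ X := by omega
    calc (α j * u + β j * v).natAbs ≤ (α j).natAbs * u.natAbs + (β j).natAbs * v.natAbs := by
          rw [← Int.natAbs_mul, ← Int.natAbs_mul]
          exact Int.natAbs_add_le _ _
      _ ≤ (α j).natAbs * (2 * X ^ (B + 1)) + (β j).natAbs * (2 * X ^ (B + 1)) :=
          add_le_add (Nat.mul_le_mul_left _ hu') (Nat.mul_le_mul_left _ hv')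
      _ = (2 * ((α j).natAbs + (β j).natAbs)) * X ^ (B + 1) := by ring
      _ ≤ X * X ^ (B + 1) := Nat.mul_le_mul_right _ hs2
      _ = X ^ (B + 2) := by ring
      _ ≤ X ^ (2 * B + 3) := Nat.pow_le_pow_right h0 (by omega)
  · simp only [fb, Sum.elim_inr]
    have hs : (qa j).natAbs + (qb j).natAbs + (qc j).natAbs ≤
        ∑ j, ((qa j).natAbs + (qb j).natAbs + (qc j).natAbs) :=
      single_le_sum (f := fun j => (qa j).natAbs + (qb j).natAbs + (qc j).natAbs)
        (fun _ _ => Nat.zero_le _) (mem_univ j)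
    have hs2 : 4 * ((qa j).natAbs + (qb j).natAbs + (qc j).natAbs) ≤ X := by omega
    calc (qa j * u ^ 2 + qb j * (u * v) + qc j * v ^ 2).natAbs
        ≤ (qa j).natAbs * u.natAbs ^ 2 + (qb j).natAbs * (u.natAbs * v.natAbs) +
          (qc j).natAbs * v.natAbs ^ 2 := by
          have e1 := Int.natAbs_add_le (qa j * u ^ 2 + qb j * (u * v)) (qc j * v ^ 2)
          have e2 := Int.natAbs_add_le (qa j * u ^ 2) (qb j * (u * v))
          rw [Int.natAbs_mul, Int.natAbs_pow] at e2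
          rw [Int.natAbs_mul (qc j), Int.natAbs_pow] at e1
          rw [Int.natAbs_mul, Int.natAbs_mul u v] at e2
          omega
      _ ≤ (qa j).natAbs * (2 * X ^ (B + 1)) ^ 2 + (qb j).natAbs * ((2 * X ^ (B + 1)) *
          (2 * X ^ (B + 1))) + (qc j).natAbs * (2 * X ^ (B + 1)) ^ 2 := by
          gcongr
      _ = (4 * ((qa j).natAbs + (qb j).natAbs + (qc j).natAbs)) * (X ^ (B + 1)) ^ 2 := by ring
      _ ≤ X * (X ^ (B + 1)) ^ 2 := Nat.mul_le_mul_right _ hs2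
      _ = X ^ (2 * B + 3) := by ring

lemma exists_Lc (h4 : NZB) (h5 : NCZ) {α β : J1 → ℤ} {qa qb qc : J2 → ℤ}
    (hD : DatC α β qa qb qc) (hα : ∀ i, α i ≠ 0) :
    ∃ z1 : ℕ, ∀ z, z1 ≤ z → Lc α β qa qb qc z := by
  obtain ⟨p0, hp0⟩ := h5 J1 J2 α β qa qb qc hD hα
  choose P0 hP0 using fun j : J2 => h4 (qa j) (qb j) (qc j) (hD.irr j)
  refine ⟨p0 + ∑ j, P0 j + ∑ j, (qb j ^ 2 - 4 * qa j * qc j).natAbs, fun z hz => ?_⟩
  refine ⟨fun p hp hzp => (hp0 p hp (by omega)).1, fun p hp hzp => (hp0 p hp (by omega)).2.1,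
    fun p hp hzp => (hp0 p hp (by omega)).2.2, fun p hp hzp j h => ?_, fun p n w hp hzp hw j => ?_⟩
  · have h0 : qb j ^ 2 - 4 * qa j * qc j ≠ 0 := by
      intro h0
      apply hD.irr j
      rw [h0]
      exact ⟨0, by norm_num⟩
    have h1 := Nat.le_of_dvd (Int.natAbs_pos.2 h0) (Int.natCast_dvd.1 h)
    have h2 := single_le_sum (f := fun j => (qb j ^ 2 - 4 * qa j * qc j).natAbs)
      (fun _ _ => Nat.zero_le _) (mem_univ j)
    omega
  · have h2 := single_le_sum (f := P0) (fun _ _ => Nat.zero_le _) (mem_univ j)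
    exact hP0 j p n w hp (by omega) hw

lemma ee_or {α β : J1 → ℤ} {qa qb qc : J2 → ℤ} (hD : DatC α β qa qb qc) (j : J1 ⊕ J2) :
    ee qa qb qc j = 0 ∨ ¬ IsSquare (ee qa qb qc j) := by
  rcases j with j | j
  · left
    rfl
  · right
    exact hD.irr j

/-- the number of the pairs -/
lemma cnt (h2 : CNTE) (h3 : MERL) (h6 : AVHS) {α β : J1 → ℤ} {qa qb qc : J2 → ℤ} {z c B : ℕ}
    (hL : Lc α β qa qb qc z)
    (he : ∀ j : J1 ⊕ J2, ee qa qb qc j = 0 ∨ ¬ IsSquare (ee qa qb qc j))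
    (hc : 2 * Fintype.card (J1 ⊕ J2) + 1 ≤ c) (hz : 2 * c + 2 ≤ z) :
    ∃ (C : ℝ) (K y0 : ℕ), 0 ≤ C ∧ 1 ≤ K ∧ ∀ (N1 N2 : ℤ) (X y Y : ℕ), 1 ≤ X →
      N2.natAbs ≤ X ^ B → y0 ≤ y → z < y → y ^ K ≤ X →
      ∀ s ∈ Tup (J1 ⊕ J2) z y, ∀ v ∈ Tup (J1 ⊕ J2) z y, ∀ u ∈ Tup (J1 ⊕ J2) y Y,
      (∏ j, s j * v j * u j) ^ 8 ≤ X → ∀ (E : Finset ℕ) (T' : Finset (ℕ × ℕ)),
      (∀ t ∈ T', t.1 ∈ Icc 1 X ∧ t.2 ∈ Icc 1 X ∧
        IsCoprime (N1 + (t.1 : ℤ)) (N2 + (t.2 : ℤ)) ∧ N2 + (t.2 : ℤ) ≠ 0) →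
      (∀ t ∈ T', S1 z y (fb α β qa qb qc (N1 + (t.1 : ℤ)) (N2 + (t.2 : ℤ))) = s ∧
        S2 z y (fb α β qa qb qc (N1 + (t.1 : ℤ)) (N2 + (t.2 : ℤ))) = v ∧
        (∀ j, (u j : ℤ) ∣ fb α β qa qb qc (N1 + (t.1 : ℤ)) (N2 + (t.2 : ℤ)) j) ∧
        ng (∏ j, s j) (∏ j, fb α β qa qb qc (N1 + (t.1 : ℤ)) (N2 + (t.2 : ℤ)) j) = E) →
      (T'.card : ℝ) ≤ C * X ^ 2 * ((1 / 2) ^ (∏ j, s j).primeFactors.card *
        (∏ j, (gw 1 c (s j) * rr (re (ee qa qb qc j)) (s j))) *
        (∏ j, (c : ℝ) ^ (v j).primeFactors.card * (gw 1 c (v j) / v j)) *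
        (∏ j, (c : ℝ) ^ (u j).primeFactors.card * (1 / (u j : ℝ)))) /
        (Real.log y) ^ (Fintype.card (J1 ⊕ J2)) := by
  obtain ⟨C1, hC1⟩ := h3 (J1 ⊕ J2) (ee qa qb qc) z he
  have hr : ∀ p, ∑ j : J1 ⊕ J2, re (ee qa qb qc j) p ≤ c := by
    intro p
    have h := sum_le_card_nsmul (univ : Finset (J1 ⊕ J2)) (fun j => re (ee qa qb qc j) p) 2
      (fun j _ => re_le _ _)
    rw [card_univ, smul_eq_mul] at h
    omega
  obtain ⟨C, K, y0, hC, hK, hcn⟩ := h2 (J1 ⊕ J2) Empty (fun j => re (ee qa qb qc j))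
    (fun i => i.elim) c z C1 (by intro p; simpa using hr p) hz
    (by
      intro y hy
      simpa using hC1 y hy)
  obtain ⟨CA, hCA, hav⟩ := h6 c z B hz
  refine ⟨C * CA, K, y0, by positivity, hK, ?_⟩
  intro N1 N2 X y Y hX1 hN2 hy0 hzy hX s hs v hv u hu h8 E T' hT hT2
  have hcz : c ≤ z := by omega
  have hs' : ∀ j, s j ∈ (PP z y).divisors := fun j =>
    Nat.mem_divisors.2 ⟨(mem_Tup'.1 hs).1 j, PP_ne_zero z y⟩
  have hv' : ∀ j, v j ∈ (PP z y).divisors := fun j =>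
    Nat.mem_divisors.2 ⟨(mem_Tup'.1 hv).1 j, PP_ne_zero z y⟩
  have hgs : ∀ j, 0 ≤ gw 1 c (s j) := fun j => gw_nonneg zero_le_one hcz (hs' j)
  have hgv : ∀ j, 0 ≤ gw 1 c (v j) := fun j => gw_nonneg zero_le_one hcz (hv' j)
  have hrr : ∀ (r : ℕ → ℕ) (d : ℕ), 0 ≤ rr r d := fun r d => by
    unfold rr
    exact prod_nonneg fun _ _ => Nat.cast_nonneg _
  set W : ℕ → ℕ := fun w => (N2 + (w : ℤ)).natAbs with hW
  set F : ℝ := (1 / 2) ^ (∏ j, s j).primeFactors.card *
        (∏ j, (gw 1 c (s j) * rr (re (ee qa qb qc j)) (s j))) *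
        (∏ j, (c : ℝ) ^ (v j).primeFactors.card * (gw 1 c (v j) / v j)) *
        (∏ j, (c : ℝ) ^ (u j).primeFactors.card * (1 / (u j : ℝ))) with hF
  have hF0 : 0 ≤ F := by
    rw [hF]
    refine mul_nonneg (mul_nonneg (mul_nonneg (by positivity) ?_) ?_) ?_
    · exact prod_nonneg fun j _ => mul_nonneg (hgs j) (hrr _ _)
    · exact prod_nonneg fun j _ => mul_nonneg (by positivity)
        (div_nonneg (hgv j) (Nat.cast_nonneg _))
    · exact prod_nonneg fun j _ => by positivity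
  have hG0 : ∀ w : ℕ, 0 ≤ ∏ p ∈ (W w).primeFactors.filter (fun p => z < p),
      (p : ℝ) / ((p : ℝ) - c) := by
    intro w
    apply prod_nonneg
    intro p hp
    have h1 : (c : ℝ) < p := by exact_mod_cast lt_of_le_of_lt hcz (mem_filter.1 hp).2
    exact div_nonneg (Nat.cast_nonneg _) (by linarith)
  have hlog : 0 ≤ (Real.log y) ^ (Fintype.card (J1 ⊕ J2)) :=
    pow_nonneg (Real.log_natCast_nonneg y) _
  have hfib : ∀ w ∈ Icc 1 X, ((T'.filter (fun t : ℕ × ℕ => t.2 = w)).card : ℝ) ≤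
      C * X * F * (∏ p ∈ (W w).primeFactors.filter (fun p => z < p),
        (p : ℝ) / ((p : ℝ) - c)) / (Real.log y) ^ (Fintype.card (J1 ⊕ J2)) := by
    intro w hw
    by_cases hw0' : N2 + (w : ℤ) = 0
    · have he : (T'.filter (fun t : ℕ × ℕ => t.2 = w)) = ∅ := by
        apply filter_eq_empty_iff.2
        intro t ht htw
        apply (hT t ht).2.2.2
        rw [htw]
        exact hw0'
      rw [he, card_empty, Nat.cast_zero]
      apply div_nonneg _ hlog
      exact mul_nonneg (mul_nonneg (by positivity) hF0) (hG0 w)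
    · have hw0 : W w ≠ 0 := Int.natAbs_ne_zero.2 hw0'
      have hc1 := hcn (PW α β qa qb qc N1 (N2 + (w : ℤ))) (fun i => i.elim) (W w) X y Y hw0 hy0
        hzy hX (by
          intro p hp hzp hpw
          have hpw' : ¬ (p : ℤ) ∣ N2 + (w : ℤ) := fun h => hpw (Int.natCast_dvd.1 h)
          refine ⟨fun j => nz_PW hL hp hzp hpw' j, fun i => i.elim, fun x =>
            ⟨fun j l hjl h => ?_, fun i => i.elim, fun _ i => i.elim,
              fun j => der_PW hL hp hzp hpw' j⟩⟩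
          rw [PW_eval, PW_eval] at h
          exact hL.lc p hp hzp _ _ hpw' j l hjl h) s hs v hv u hu h8 E
      refine (le_trans ?_ hc1).trans_eq ?_
      · rw [Nat.cast_le]
        apply card_le_card_of_injOn (fun t : ℕ × ℕ => t.1)
        · intro t ht
          have ht' : t ∈ T'.filter (fun t : ℕ × ℕ => t.2 = w) := ht
          rw [mem_filter] at ht'
          obtain ⟨ht1, ht2⟩ := ht'
          obtain ⟨a1, a2, a3, a4⟩ := hT t ht1
          obtain ⟨b1, b2, b3, b4⟩ := hT2 t ht1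
          rw [ht2] at a3 b1 b2 b3 b4
          have e1 : (fun j => (PW α β qa qb qc N1 (N2 + (w : ℤ)) j).eval (t.1 : ℤ)) =
              fb α β qa qb qc (N1 + (t.1 : ℤ)) (N2 + (w : ℤ)) := by
            funext j
            exact PW_eval _ _ _ _ _ _ _ _ j
          have e2 : ∀ j, (PW α β qa qb qc N1 (N2 + (w : ℤ)) j).eval (t.1 : ℤ) =
              fb α β qa qb qc (N1 + (t.1 : ℤ)) (N2 + (w : ℤ)) j := fun j =>
            PW_eval _ _ _ _ _ _ _ _ j
          simp only [coe_filter, Set.mem_ofPred_eq]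
          refine ⟨a1, ?_, ?_, ?_, ?_, fun p _ _ i => i.elim, ?_⟩
          · intro p hp hzp j hj
            rw [e2] at hj
            have hpp := Nat.prime_of_mem_primeFactors hp
            exact not_dvd_w hL hpp hzp a3 j hj
              (Int.natCast_dvd.2 (Nat.dvd_of_mem_primeFactors hp))
          · rw [e1]
            exact b1
          · rw [e1]
            exact b2
          · intro j
            rw [e2]
            exact b3 j
          · simp only [e2]
            exact b4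
        · intro a ha b hb hab
          have ha' : a ∈ T'.filter (fun t : ℕ × ℕ => t.2 = w) := ha
          have hb' : b ∈ T'.filter (fun t : ℕ × ℕ => t.2 = w) := hb
          rw [mem_filter] at ha' hb'
          exact Prod.ext hab (ha'.2.trans hb'.2.symm)
      · rw [hF]
        simp only [Fintype.card_empty, add_zero]
        ring
  have hcard : (T'.card : ℝ) ≤ ∑ w ∈ Icc 1 X,
      C * X * F * (∏ p ∈ (W w).primeFactors.filter (fun p => z < p),
        (p : ℝ) / ((p : ℝ) - c)) / (Real.log y) ^ (Fintype.card (J1 ⊕ J2)) := by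
    rw [card_eq_sum_card_fiberwise (f := fun t : ℕ × ℕ => t.2) (t := Icc 1 X)
      (fun t ht => (hT t ht).2.1), Nat.cast_sum]
    exact sum_le_sum hfib
  refine hcard.trans ?_
  rw [← sum_div, ← mul_sum]
  apply div_le_div_of_nonneg_right _ hlog
  have h5 := hav N2 X hX1 hN2
  calc C * X * F * ∑ w ∈ Icc 1 X, (∏ p ∈ (W w).primeFactors.filter (fun p => z < p),
        (p : ℝ) / ((p : ℝ) - c)) ≤ C * X * F * (CA * X) :=
        mul_le_mul_of_nonneg_left h5 (by positivity)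
    _ = C * CA * X ^ 2 * F := by ring

end

end Pool.Agent.W975.QF
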