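import Mathlib
import Pool.Agent.W975.QF.AVC2

/-!
# Project QF, part AVC: the moments over the coprime pairs of short squares
-/

set_option autoImplicit false
set_option maxHeartbeats 400000

namespace Pool.Agent.W975.QF

open Finset Polynomial Pool.Agent.W262.RK Pool.Agent.W307.RT Pool.Agent.W307.RS Pool.Agent.W307.QF

/-- the parameters -/
def Th (B : ℕ) : Type :=
  {θ : ℤ × ℤ × ℕ // 1 ≤ θ.2.2 ∧ θ.1.natAbs ≤ θ.2.2 ^ B ∧ θ.2.1.natAbs ≤ θ.2.2 ^ B}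

/-- the small scales -/
lemma small (R : ℤ → ℤ → ℕ → ℝ) (hR : ∀ N1 N2 X, 0 ≤ R N1 N2 X) (B X0 : ℕ) :
    ∃ D : ℝ, 0 ≤ D ∧ ∀ (N1 N2 : ℤ) (X : ℕ), 1 ≤ X → X ≤ X0 → N1.natAbs ≤ X ^ B →
      N2.natAbs ≤ X ^ B → R N1 N2 X ≤ D := by
  refine ⟨∑ N1 ∈ Icc (-((X0 ^ B : ℕ) : ℤ)) ((X0 ^ B : ℕ) : ℤ),
    ∑ N2 ∈ Icc (-((X0 ^ B : ℕ) : ℤ)) ((X0 ^ B : ℕ) : ℤ), ∑ X ∈ Icc 1 X0, R N1 N2 X,
    sum_nonneg fun _ _ => sum_nonneg fun _ _ => sum_nonneg fun _ _ => hR _ _ _, ?_⟩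
  intro N1 N2 X h1 h2 h3 h4
  have hXB : X ^ B ≤ X0 ^ B := Nat.pow_le_pow_left h2 B
  have m1 : N1 ∈ Icc (-((X0 ^ B : ℕ) : ℤ)) ((X0 ^ B : ℕ) : ℤ) := by
    rw [mem_Icc]; omega
  have m2 : N2 ∈ Icc (-((X0 ^ B : ℕ) : ℤ)) ((X0 ^ B : ℕ) : ℤ) := by
    rw [mem_Icc]; omega
  have m3 : X ∈ Icc 1 X0 := mem_Icc.mpr ⟨h1, h2⟩
  calc R N1 N2 X ≤ ∑ X ∈ Icc 1 X0, R N1 N2 X :=
        single_le_sum (f := fun X => R N1 N2 X) (fun _ _ => hR _ _ _) m3
    _ ≤ ∑ N2 ∈ Icc (-((X0 ^ B : ℕ) : ℤ)) ((X0 ^ B : ℕ) : ℤ), ∑ X ∈ Icc 1 X0, R N1 N2 X :=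
        single_le_sum (f := fun N2 => ∑ X ∈ Icc 1 X0, R N1 N2 X)
          (fun _ _ => sum_nonneg fun _ _ => hR _ _ _) m2
    _ ≤ _ := single_le_sum (f := fun N1 => ∑ N2 ∈ Icc (-((X0 ^ B : ℕ) : ℤ)) ((X0 ^ B : ℕ) : ℤ),
          ∑ X ∈ Icc 1 X0, R N1 N2 X)
          (fun _ _ => sum_nonneg fun _ _ => sum_nonneg fun _ _ => hR _ _ _) m1

section

variable {J1 J2 : Type} [Fintype J1] [DecidableEq J1] [Fintype J2] [DecidableEq J2]

open Classical in
/-- the pairs with nonzero second coordinate -/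
noncomputable def TS (α β : J1 → ℤ) (qa qb qc : J2 → ℤ) (N1 N2 : ℤ) (X : ℕ) :
    Finset (ℕ × ℕ) :=
  (Icc 1 X ×ˢ Icc 1 X).filter (fun t : ℕ × ℕ =>
      (IsCoprime (N1 + (t.1 : ℤ)) (N2 + (t.2 : ℤ)) ∧
      ∀ j, fb α β qa qb qc (N1 + (t.1 : ℤ)) (N2 + (t.2 : ℤ)) j ≠ 0) ∧ N2 + (t.2 : ℤ) ≠ 0)

/-- the summand -/
noncomputable def RR (α β : J1 → ℤ) (qa qb qc : J2 → ℤ) (a : Fin 3 → ℤ) (k : ℕ) (u v : ℤ) : ℝ :=
  ((2 : ℝ) ^ Module.finrank ℤ (EAB (a 0 * ∏ j, fb α β qa qb qc u v j)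
        (a 1 * ∏ j, fb α β qa qb qc u v j)).toAffine.Point) ^ k

lemma RR_nonneg (α β : J1 → ℤ) (qa qb qc : J2 → ℤ) (a : Fin 3 → ℤ) (k : ℕ) (u v : ℤ) :
    0 ≤ RR α β qa qb qc a k u v := by
  unfold RR
  positivity

end

/-- QF-AVC -/
theorem avc_of (h1 : Pool.Agent.W307.QF.AVGA) (h2 : Pool.Agent.W307.QF.CNTE)
    (h3 : Pool.Agent.W307.QF.MERL) (h4 : Pool.Agent.W307.QF.NZB) (h5 : Pool.Agent.W307.QF.NCZ)
    (h6 : Pool.Agent.W307.RS.AVHS) : Pool.Agent.W307.QF.AVC := by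
  intro J1 J2 _ _ _ _ α β qa qb qc a k B hD hα ha haa hk
  obtain ⟨z1, hz1⟩ := exists_Lc h4 h5 hD hα
  obtain ⟨X1, hX1⟩ := size α β qa qb qc B
  set N := Fintype.card (J1 ⊕ J2) with hN
  have key := h1 (J1 ⊕ J2) (ℕ × ℕ) (Th B)
    (fun θ => TS α β qa qb qc θ.1.1 θ.1.2.1 θ.1.2.2) (fun θ => θ.1.2.2)
    (fun θ t => fb α β qa qb qc (θ.1.1 + (t.1 : ℤ)) (θ.1.2.1 + (t.2 : ℤ)))
    (fun θ => (θ.1.2.2 : ℝ) ^ 2) a (ee qa qb qc) (2 * N + 1) (2 * B + 3) k ha haa (ee_or hD) hk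
    (by omega) (fun θ => θ.2.1) (fun θ => by positivity) ?_ ?_ ?_
  · obtain ⟨C2, hC2⟩ := key
    have hD0 : 0 ≤ RR α β qa qb qc a k 1 0 + RR α β qa qb qc a k (-1) 0 :=
      add_nonneg (RR_nonneg _ _ _ _ _ _ _ _ _) (RR_nonneg _ _ _ _ _ _ _ _ _)
    refine ⟨C2 + 2 * (RR α β qa qb qc a k 1 0 + RR α β qa qb qc a k (-1) 0),
      fun N1 N2 X hX hN1 hN2 => ?_⟩
    have h7 := hC2 ⟨(N1, N2, X), hX, hN1, hN2⟩
    simp only at h7
    rw [← sum_filter_add_sum_filter_not _ (fun t : ℕ × ℕ => N2 + (t.2 : ℤ) ≠ 0), add_mul]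
    apply add_le_add
    · refine le_trans (le_of_eq ?_) h7
      apply sum_congr _ fun _ _ => rfl
      ext t
      simp only [TS, mem_filter]
      tauto
    · have hX2 : (1 : ℝ) ≤ (X : ℝ) ^ 2 := one_le_pow₀ (by exact_mod_cast hX)
      refine le_trans ?_ (le_mul_of_one_le_right (by positivity) hX2)
      set T0 := ((Icc 1 X ×ˢ Icc 1 X).filter (fun t : ℕ × ℕ =>
        IsCoprime (N1 + (t.1 : ℤ)) (N2 + (t.2 : ℤ)) ∧
        ∀ j, fb α β qa qb qc (N1 + (t.1 : ℤ)) (N2 + (t.2 : ℤ)) j ≠ 0)).filter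
          (fun t : ℕ × ℕ => ¬ (N2 + (t.2 : ℤ) ≠ 0)) with hT0
      have hmem : ∀ t ∈ T0, (N1 + (t.1 : ℤ) = 1 ∨ N1 + (t.1 : ℤ) = -1) ∧ N2 + (t.2 : ℤ) = 0 := by
        intro t ht
        rw [hT0, mem_filter, mem_filter] at ht
        have h0 : N2 + (t.2 : ℤ) = 0 := not_not.1 ht.2
        have hcop := ht.1.2.1
        rw [h0, isCoprime_zero_right, Int.isUnit_iff] at hcop
        exact ⟨hcop, h0⟩
      have hcard : T0.card ≤ 2 := by
        have hsub : T0 ⊆ ({((1 - N1).toNat, (-N2).toNat), ((-1 - N1).toNat, (-N2).toNat)} :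
            Finset (ℕ × ℕ)) := by
          intro t ht
          obtain ⟨h8, h9⟩ := hmem t ht
          rw [mem_insert, mem_singleton]
          have ht2 : t.2 = (-N2).toNat := by omega
          rcases h8 with h | h
          · left
            exact Prod.ext (by simp only; omega) ht2
          · right
            exact Prod.ext (by simp only; omega) ht2
        exact (card_le_card hsub).trans card_le_two
      have hcardR : (T0.card : ℝ) ≤ 2 := by exact_mod_cast hcard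
      calc _ ≤ T0.card • (RR α β qa qb qc a k 1 0 + RR α β qa qb qc a k (-1) 0) := by
            apply sum_le_card_nsmul
            intro t ht
            obtain ⟨h8, h9⟩ := hmem t ht
            have e : ((2 : ℝ) ^ Module.finrank ℤ
              (EAB (a 0 * ∏ j, fb α β qa qb qc (N1 + (t.1 : ℤ)) (N2 + (t.2 : ℤ)) j)
              (a 1 * ∏ j, fb α β qa qb qc (N1 + (t.1 : ℤ)) (N2 + (t.2 : ℤ)) j)).toAffine.Point) ^ k
              = RR α β qa qb qc a k (N1 + (t.1 : ℤ)) (N2 + (t.2 : ℤ)) := rfl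
            rw [e, h9]
            rcases h8 with h | h
            · rw [h]
              exact le_add_of_nonneg_right (RR_nonneg _ _ _ _ _ _ _ _ _)
            · rw [h]
              exact le_add_of_nonneg_left (RR_nonneg _ _ _ _ _ _ _ _ _)
        _ = (T0.card : ℝ) * (RR α β qa qb qc a k 1 0 + RR α β qa qb qc a k (-1) 0) := by
            rw [nsmul_eq_mul]
        _ ≤ 2 * (RR α β qa qb qc a k 1 0 + RR α β qa qb qc a k (-1) 0) :=
            mul_le_mul_of_nonneg_right hcardR hD0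
  · intro X0
    obtain ⟨D, hD0, hD'⟩ := small
      (fun N1 N2 X => ∑ t ∈ TS α β qa qb qc N1 N2 X,
        RR α β qa qb qc a k (N1 + (t.1 : ℤ)) (N2 + (t.2 : ℤ)))
      (fun _ _ _ => sum_nonneg fun _ _ => RR_nonneg _ _ _ _ _ _ _ _ _) B X0
    refine ⟨D, fun θ hθ => ?_⟩
    refine (hD' θ.1.1 θ.1.2.1 θ.1.2.2 θ.2.1 hθ θ.2.2.1 θ.2.2.2).trans ?_
    have h1 : (1 : ℝ) ≤ (θ.1.2.2 : ℝ) ^ 2 := one_le_pow₀ (by exact_mod_cast θ.2.1)
    exact le_mul_of_one_le_right hD0 h1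
  · refine ⟨X1, fun θ hθ t ht j => ?_⟩
    simp only [TS, mem_filter, mem_product, mem_Icc] at ht
    obtain ⟨⟨⟨b1, b2⟩, b3, b4⟩, -⟩ := ht
    have c1 := θ.2.2.1
    have c2 := θ.2.2.2
    apply hX1 θ.1.2.2 _ _ hθ θ.2.1
    · omega
    · omega
  · refine ⟨max z1 (2 * (2 * N + 1) + 2), fun z hz => ?_⟩
    have hzz1 : z1 ≤ z := le_trans (le_max_left _ _) hz
    have hzc : 2 * (2 * N + 1) + 2 ≤ z := le_trans (le_max_right _ _) hz
    have hL := hz1 z hzz1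
    refine ⟨fun θ t ht => ?_, ?_⟩
    · simp only [TS, mem_filter] at ht
      exact gd_fb hL ht.2.1.1 ht.2.1.2
    obtain ⟨C, K, y0, hC, hK, hcn⟩ := cnt (B := B) (c := 2 * N + 1) h2 h3 h6 hL (ee_or hD)
      (le_refl _) hzc
    have hc1 : (1 : ℝ) ≤ ((2 * N + 1 : ℕ) : ℝ) := by
      exact_mod_cast (by omega : 1 ≤ 2 * N + 1)
    refine ⟨C, ((2 * N + 1 : ℕ) : ℝ), 2 * ((2 * N + 1 : ℕ) : ℝ), K, max y0 1, hC, hc1,
      by linarith, hK, ?_⟩
    rintro ⟨⟨N1, N2, X⟩, hX, hN1, hN2⟩ y Y k' hy0 hzy hyK hk' s hs v hv u hu h8 E T' hT' hT2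
    simp only at hX hN1 hN2 hyK hk' h8 hT' hT2 ⊢
    have hs' : ∀ j, s j ∈ (PP z y).divisors := fun j =>
      Nat.mem_divisors.2 ⟨(mem_Tup'.1 hs).1 j, PP_ne_zero z y⟩
    have hv' : ∀ j, v j ∈ (PP z y).divisors := fun j =>
      Nat.mem_divisors.2 ⟨(mem_Tup'.1 hv).1 j, PP_ne_zero z y⟩
    have hu' : ∀ j, u j ∈ (PP y Y).divisors := fun j =>
      Nat.mem_divisors.2 ⟨(mem_Tup'.1 hu).1 j, PP_ne_zero y Y⟩
    have hlog : 0 ≤ (Real.log y) ^ (Fintype.card (J1 ⊕ J2)) :=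
      pow_nonneg (Real.log_natCast_nonneg y) _
    have hmain := hcn N1 N2 X y Y hX hN2 (le_trans (le_max_left _ _) hy0) hzy hyK s hs v hv u hu
      h8 E T' (fun t ht => by
        have ht' := hT' ht
        simp only [TS, mem_filter, mem_product] at ht'
        exact ⟨ht'.1.1, ht'.1.2, ht'.2.1.1, ht'.2.2⟩) hT2
    refine hmain.trans ?_
    apply div_le_div_of_nonneg_right _ hlog
    have hcz : 2 * N + 1 ≤ z := by omega
    have hNz : N ≤ z := by omega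
    set c := 2 * N + 1 with hc
    have hV : (∏ j, (c : ℝ) ^ (v j).primeFactors.card * (gw 1 c (v j) / v j)) ≤
        ∏ j, (2 * (c : ℝ)) ^ (v j).primeFactors.card * (gw 1 N (v j) / v j) := by
      apply prod_le_prod
      · intro j _
        exact mul_nonneg (by positivity)
          (div_nonneg (gw_nonneg zero_le_one hcz (hv' j)) (Nat.cast_nonneg _))
      · intro j _
        have e1 := gw_comp (n := N) hzc (by omega) (hv' j)
        calc (c : ℝ) ^ (v j).primeFactors.card * (gw 1 c (v j) / v j)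
            ≤ (c : ℝ) ^ (v j).primeFactors.card *
              ((2 ^ (v j).primeFactors.card * gw 1 N (v j)) / v j) := by
              apply mul_le_mul_of_nonneg_left _ (by positivity)
              exact div_le_div_of_nonneg_right e1 (Nat.cast_nonneg _)
          _ = (2 * (c : ℝ)) ^ (v j).primeFactors.card * (gw 1 N (v j) / v j) := by
              rw [mul_pow]
              ring
    have hU : (∏ j, (c : ℝ) ^ (u j).primeFactors.card * (1 / (u j : ℝ))) ≤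
        (c : ℝ) ^ k' * ∏ j, 1 / (u j : ℝ) := by
      rw [prod_mul_distrib, prod_pow_eq_pow_sum]
      apply mul_le_mul_of_nonneg_right _ (prod_nonneg fun j _ => by positivity)
      apply pow_le_pow_right₀ hc1
      apply omega_le (y := y) (Y := Y) (X := X) (a := ∏ j, s j * v j * u j)
        (le_trans (le_max_right _ _) hy0) hu' _ h8 hk'
      apply prod_le_prod'
      intro j _
      exact Nat.le_mul_of_pos_left _ (Nat.mul_pos (dv_pos (hs' j)) (dv_pos (hv' j)))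
    have hP1 : 0 ≤ ∏ j, (gw 1 c (s j) * rr (re (ee qa qb qc j)) (s j)) :=
      prod_nonneg fun j _ => mul_nonneg (gw_nonneg zero_le_one hcz (hs' j)) (by
        unfold rr
        exact prod_nonneg fun _ _ => Nat.cast_nonneg _)
    have hV2 : 0 ≤ ∏ j, (2 * (c : ℝ)) ^ (v j).primeFactors.card * (gw 1 N (v j) / v j) :=
      prod_nonneg fun j _ => mul_nonneg (by positivity)
        (div_nonneg (gw_nonneg zero_le_one hNz (hv' j)) (Nat.cast_nonneg _))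
    have hU0 : 0 ≤ ∏ j, (c : ℝ) ^ (u j).primeFactors.card * (1 / (u j : ℝ)) :=
      prod_nonneg fun j _ => by positivity
    calc C * (X : ℝ) ^ 2 * ((1 / 2) ^ (∏ j, s j).primeFactors.card *
        (∏ j, (gw 1 c (s j) * rr (re (ee qa qb qc j)) (s j))) *
        (∏ j, (c : ℝ) ^ (v j).primeFactors.card * (gw 1 c (v j) / v j)) *
        (∏ j, (c : ℝ) ^ (u j).primeFactors.card * (1 / (u j : ℝ))))
        ≤ C * (X : ℝ) ^ 2 * ((1 / 2) ^ (∏ j, s j).primeFactors.card *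
          (∏ j, (gw 1 c (s j) * rr (re (ee qa qb qc j)) (s j))) *
          (∏ j, (2 * (c : ℝ)) ^ (v j).primeFactors.card * (gw 1 N (v j) / v j)) *
          ((c : ℝ) ^ k' * ∏ j, 1 / (u j : ℝ))) := by
          apply mul_le_mul_of_nonneg_left _ (by positivity)
          apply mul_le_mul _ hU hU0 (mul_nonneg (mul_nonneg (by positivity) hP1) hV2)
          exact mul_le_mul_of_nonneg_left hV (mul_nonneg (by positivity) hP1)
      _ = _ := by
          ring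

end Pool.Agent.W975.QF
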